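import Pool.Agent.R676.Cox.Key

/-!
# Rank two parabolic sets of reflections in a Coxeter group
-/

set_option autoImplicit false

namespace Run7.h586.CoxPlane

open CoxeterSystem
open Pool.Agent.R676.Cox
open Pool.Agent.Helper741 (alt alt_succ' alt_conj alt_mul_two)

variable {B : Type*} {M : CoxeterMatrix B} {W : Type*} [Group W] (cs : CoxeterSystem M W)

/-- `v` lies in the plane `x · span(e_s, e_t)`. -/
def InPl (x : W) (s t : B) (v : B →₀ ℝ) : Prop :=
  ∀ k, k ≠ s → k ≠ t → (geo cs x⁻¹ v) k = 0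

/-- The reflections whose root lies in the plane `x · span(e_s, e_t)`. -/
def RS (x : W) (s t : B) : Set W := {r | cs.IsReflection r ∧ InPl cs x s t (rt cs r)}

variable {cs}

lemma ext_pair {s t : B} {v w : B →₀ ℝ} (hv : ∀ k, k ≠ s → k ≠ t → v k = 0)
    (hw : ∀ k, k ≠ s → k ≠ t → w k = 0) (h1 : v s = w s) (h2 : v t = w t) : v = w := by
  ext k
  by_cases hs : k = s
  · rw [hs, h1]
  · by_cases ht : k = t
    · rw [ht, h2]
    · rw [hv k hs ht, hw k hs ht]

lemma geo_closure {s t : B} {u : W}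
    (hu : u ∈ Subgroup.closure ({cs.simple s, cs.simple t} : Set W)) (v : B →₀ ℝ) (k : B)
    (h1 : k ≠ s) (h2 : k ≠ t) : (geo cs u v) k = v k := by
  have hs : ∀ (i : B), k ≠ i → ∀ v : B →₀ ℝ, (geo cs (cs.simple i) v) k = v k := by
    intro i hi v
    rw [geo_simple, sg_apply]
    simp [ee, Ne.symm hi]
  induction hu using Subgroup.closure_induction generalizing v with
  | mem x hx =>
    rcases hx with rfl | hx
    · exact hs s h1 v
    · rw [Set.mem_singleton_iff] at hx
      subst hx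
      exact hs t h2 v
  | one => simp
  | mul x y _ _ hx hy => rw [map_mul, Module.End.mul_apply, hx, hy]
  | inv x _ hx =>
    have := hx (geo cs x⁻¹ v)
    rw [geo_apply_inv] at this
    exact this.symm

lemma image_pair (s t : B) : cs.simple '' ({s, t} : Set B) = {cs.simple s, cs.simple t} := by
  rw [Set.image_pair]

/-- Reflections of the plane are conjugate into the standard dihedral subgroup. -/
lemma mem_RS_iff {x : W} {s t : B} {r : W} : r ∈ RS cs x s t ↔
    cs.IsReflection r ∧ x⁻¹ * r * x ∈ Subgroup.closure ({cs.simple s, cs.simple t} : Set W) := by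
  constructor
  · rintro ⟨hr, h⟩
    refine ⟨hr, ?_⟩
    have hr' : cs.IsReflection (x⁻¹ * r * x) := by simpa using hr.conj x⁻¹
    rw [← image_pair]
    refine mem_closure_of_support ({s, t} : Set B) _ _ hr' rfl ?_
    intro k hk
    simp only [Set.mem_insert_iff, Set.mem_singleton_iff, not_or] at hk
    have h1 := h k hk.1 hk.2
    have e : x⁻¹ * r * x = x⁻¹ * r * (x⁻¹)⁻¹ := by rw [inv_inv]
    rcases ((rt_isRt hr).geo x⁻¹).cases with h2 | h2
    · rw [e, rt_conj_pos hr _ h2]; exact h1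
    · rw [e, rt_conj_neg hr _ h2, Finsupp.neg_apply, h1, neg_zero]
  · rintro ⟨hr, h⟩
    refine ⟨hr, ?_⟩
    intro k h1 h2
    have hr' : cs.IsReflection (x⁻¹ * r * x) := by simpa using hr.conj x⁻¹
    have h3 := geo_closure h (rt cs (x⁻¹ * r * x)) k h1 h2
    rw [geo_rt_self hr', Finsupp.neg_apply] at h3
    have h4 : (rt cs (x⁻¹ * r * x)) k = 0 := by linarith
    have e : x⁻¹ * r * x = x⁻¹ * r * (x⁻¹)⁻¹ := by rw [inv_inv]
    rcases ((rt_isRt hr).geo x⁻¹).cases with h5 | h5
    · rw [e, rt_conj_pos hr _ h5] at h4; exact h4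
    · rw [e, rt_conj_neg hr _ h5, Finsupp.neg_apply, neg_eq_zero] at h4; exact h4

lemma RS_coset {x u : W} {s t : B}
    (hu : u ∈ Subgroup.closure ({cs.simple s, cs.simple t} : Set W)) :
    RS cs (x * u) s t = RS cs x s t := by
  ext r
  rw [mem_RS_iff, mem_RS_iff]
  have e : (x * u)⁻¹ * r * (x * u) = u⁻¹ * (x⁻¹ * r * x) * u := by group
  rw [e]
  have h1 : u⁻¹ * (x⁻¹ * r * x) * u ∈ Subgroup.closure ({cs.simple s, cs.simple t} : Set W) ↔
      x⁻¹ * r * x ∈ Subgroup.closure ({cs.simple s, cs.simple t} : Set W) := by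
    constructor
    · intro h
      have := Subgroup.mul_mem _ (Subgroup.mul_mem _ hu h) (Subgroup.inv_mem _ hu)
      have e2 : u * (u⁻¹ * (x⁻¹ * r * x) * u) * u⁻¹ = x⁻¹ * r * x := by group
      rwa [e2] at this
    · intro h
      exact Subgroup.mul_mem _ (Subgroup.mul_mem _ (Subgroup.inv_mem _ hu) h) hu
  rw [h1]

lemma RS_swap (x : W) (s t : B) : RS cs x s t = RS cs x t s := by
  ext r
  rw [mem_RS_iff, mem_RS_iff, Set.pair_comm]

lemma simple_mem_RS (x : W) (s t : B) : x * cs.simple s * x⁻¹ ∈ RS cs x s t := by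
  rw [mem_RS_iff]
  refine ⟨(cs.isReflection_simple s).conj x, ?_⟩
  have e : x⁻¹ * (x * cs.simple s * x⁻¹) * x = cs.simple s := by group
  rw [e]
  exact Subgroup.subset_closure (Set.mem_insert _ _)

lemma simple_mem_RS' (x : W) (s t : B) : x * cs.simple t * x⁻¹ ∈ RS cs x s t := by
  rw [RS_swap]; exact simple_mem_RS x t s

/-- Roots of two different reflections are not proportional. -/
lemma not_prop {r r' : W} (hr : cs.IsReflection r) (hr' : cs.IsReflection r') (hne : r ≠ r')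
    {a : ℝ} (h : rt cs r = a • rt cs r') : False := by
  exact hne (rt_inj hr hr' ((rt_PR hr).eq_of_smul (rt_PR hr') h))

/-- Two different reflections determine the plane. -/
lemma subset_of_two {x x' : W} {s t s' t' : B} {r r' : W}
    (hne : r ≠ r') (h1 : r ∈ RS cs x s t) (h2 : r' ∈ RS cs x s t) (h1' : r ∈ RS cs x' s' t')
    (h2' : r' ∈ RS cs x' s' t') : RS cs x s t ⊆ RS cs x' s' t' := by
  intro q hq
  refine ⟨hq.1, ?_⟩
  -- coordinates
  set u := geo cs x⁻¹ (rt cs r) with hu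
  set v := geo cs x⁻¹ (rt cs r') with hv
  set z := geo cs x⁻¹ (rt cs q) with hz
  have su : ∀ k, k ≠ s → k ≠ t → u k = 0 := h1.2
  have sv : ∀ k, k ≠ s → k ≠ t → v k = 0 := h2.2
  have sz : ∀ k, k ≠ s → k ≠ t → z k = 0 := hq.2
  have ssm : ∀ (a : ℝ) (w : B →₀ ℝ), (∀ k, k ≠ s → k ≠ t → w k = 0) →
      ∀ k, k ≠ s → k ≠ t → (a • w) k = 0 := by
    intro a w hw k hk1 hk2
    rw [Finsupp.smul_apply, hw k hk1 hk2, smul_zero]
  have hD : u s * v t - u t * v s ≠ 0 := by
    intro h0
    have hvne : v ≠ 0 := ((rt_isRt h2.1).geo x⁻¹).ne_zero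
    have hprop : ∃ a : ℝ, u = a • v := by
      by_cases hvs : v s = 0
      · have hvt : v t ≠ 0 := by
          intro hvt
          apply hvne
          exact ext_pair sv (by simp) (by simpa using hvs) (by simpa using hvt)
        have hus : u s = 0 := by
          rw [hvs, mul_zero, sub_zero] at h0
          exact (mul_eq_zero.1 h0).resolve_right hvt
        refine ⟨u t / v t, ext_pair su (ssm _ v sv) ?_ ?_⟩
        · rw [Finsupp.smul_apply, smul_eq_mul, hvs, hus, mul_zero]
        · rw [Finsupp.smul_apply, smul_eq_mul, div_mul_cancel₀ _ hvt]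
      · refine ⟨u s / v s, ext_pair su (ssm _ v sv) ?_ ?_⟩
        · rw [Finsupp.smul_apply, smul_eq_mul, div_mul_cancel₀ _ hvs]
        · rw [Finsupp.smul_apply, smul_eq_mul]
          field_simp
          linarith
    obtain ⟨a, ha⟩ := hprop
    refine not_prop h1.1 h2.1 hne (a := a) ?_
    have := congrArg (geo cs x) ha
    rwa [hu, hv, map_smul, geo_apply_inv, geo_apply_inv] at this
  obtain ⟨D, hDdef⟩ : ∃ D, D = u s * v t - u t * v s := ⟨_, rfl⟩
  rw [← hDdef] at hD
  have hcomb : z = ((z s * v t - z t * v s) / D) • u + ((u s * z t - u t * z s) / D) • v := by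
    apply ext_pair sz
    · intro k hk1 hk2
      rw [Finsupp.add_apply, ssm _ u su k hk1 hk2, ssm _ v sv k hk1 hk2, add_zero]
    · rw [Finsupp.add_apply, Finsupp.smul_apply, Finsupp.smul_apply, smul_eq_mul, smul_eq_mul]
      field_simp
      rw [hDdef]; ring
    · rw [Finsupp.add_apply, Finsupp.smul_apply, Finsupp.smul_apply, smul_eq_mul, smul_eq_mul]
      field_simp
      rw [hDdef]; ring
  have h3 := congrArg (geo cs x) hcomb
  rw [hz, hu, hv, map_add, map_smul, map_smul, geo_apply_inv, geo_apply_inv, geo_apply_inv] at h3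
  intro k hk1 hk2
  rw [h3, map_add, map_smul, map_smul, Finsupp.add_apply, Finsupp.smul_apply, Finsupp.smul_apply,
    h1'.2 k hk1 hk2, h2'.2 k hk1 hk2]
  simp

/-- Two different reflections determine the plane. -/
lemma eq_of_two {x x' : W} {s t s' t' : B} {r r' : W}
    (hne : r ≠ r') (h1 : r ∈ RS cs x s t) (h2 : r' ∈ RS cs x s t) (h1' : r ∈ RS cs x' s' t')
    (h2' : r' ∈ RS cs x' s' t') : RS cs x s t = RS cs x' s' t' :=
  Set.Subset.antisymm (subset_of_two hne h1 h2 h1' h2') (subset_of_two hne h1' h2' h1 h2)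

/-! ## Minimal chambers and extremal roots -/

lemma exists_min (x : W) (s t : B) :
    ∃ u ∈ Subgroup.closure ({cs.simple s, cs.simple t} : Set W),
      0 ≤ geo cs (x * u) (ee s) ∧ 0 ≤ geo cs (x * u) (ee t) := by
  obtain ⟨u, hu, hmin⟩ := WellFounded.has_min (measure (fun u => cs.length (x * u))).wf
    (Subgroup.closure ({cs.simple s, cs.simple t} : Set W) : Set W) ⟨1, Subgroup.one_mem _⟩
  refine ⟨u, hu, ?_, ?_⟩
  · rw [geo_nonneg_iff]
    have h1 : ¬ cs.length (x * (u * cs.simple s)) < cs.length (x * u) :=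
      hmin (u * cs.simple s) (Subgroup.mul_mem _ hu (Subgroup.subset_closure (Set.mem_insert _ _)))
    rw [← mul_assoc] at h1
    rcases cs.length_mul_simple (x * u) s with h2 | h2 <;> omega
  · rw [geo_nonneg_iff]
    have h1 : ¬ cs.length (x * (u * cs.simple t)) < cs.length (x * u) :=
      hmin (u * cs.simple t) (Subgroup.mul_mem _ hu
        (Subgroup.subset_closure (Set.mem_insert_of_mem _ rfl)))
    rw [← mul_assoc] at h1
    rcases cs.length_mul_simple (x * u) t with h2 | h2 <;> omega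

lemma rt_min {y : W} {s : B} (h : 0 ≤ geo cs y (ee s)) :
    rt cs (y * cs.simple s * y⁻¹) = geo cs y (ee s) := by
  have h1 := rt_conj_pos (cs.isReflection_simple s) y (by rwa [rt_simple])
  rwa [rt_simple] at h1

lemma comb_of {y : W} {s t : B} (hst : s ≠ t) {r : W} (hr : r ∈ RS cs y s t) :
    rt cs r = (geo cs y⁻¹ (rt cs r)) s • geo cs y (ee s) +
      (geo cs y⁻¹ (rt cs r)) t • geo cs y (ee t) := by
  have h1 : geo cs y⁻¹ (rt cs r) = (geo cs y⁻¹ (rt cs r)) s • (ee s : B →₀ ℝ) +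
      (geo cs y⁻¹ (rt cs r)) t • ee t := by
    apply ext_pair (s := s) (t := t) hr.2
    · intro k hk1 hk2
      simp [ee, Ne.symm hk1, Ne.symm hk2]
    · simp [ee, Ne.symm hst]
    · simp [ee, hst]
  have h2 := congrArg (geo cs y) h1
  rw [geo_apply_inv, map_add, map_smul, map_smul] at h2
  exact h2

lemma coords_nonneg {y : W} {s t : B} (hst : s ≠ t) (h1 : 0 ≤ geo cs y (ee s))
    (h2 : 0 ≤ geo cs y (ee t)) {r : W} (hr : r ∈ RS cs y s t) :
    0 ≤ geo cs y⁻¹ (rt cs r) := by
  rcases ((rt_isRt hr.1).geo y⁻¹).cases with h | h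
  · exact h
  · exfalso
    have h3 := comb_of hst hr
    apply (rt_isRt hr.1).not_both (rt_pos hr.1)
    rw [h3]
    have h4 : (geo cs y⁻¹ (rt cs r)) s ≤ 0 := h s
    have h5 : (geo cs y⁻¹ (rt cs r)) t ≤ 0 := h t
    exact add_nonpos (smul_nonpos_of_nonpos_of_nonneg h4 h1)
      (smul_nonpos_of_nonpos_of_nonneg h5 h2)

/-- A combination with one coefficient zero. -/
lemma eq_of_coord {y : W} {s t : B} (hst : s ≠ t) (h1 : 0 ≤ geo cs y (ee s)) {r : W}
    (hr : r ∈ RS cs y s t) (h : (geo cs y⁻¹ (rt cs r)) t = 0) : r = y * cs.simple s * y⁻¹ := by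
  by_contra hne
  have h3 := comb_of hst hr
  rw [h, zero_smul, add_zero, ← rt_min h1] at h3
  exact not_prop hr.1 ((cs.isReflection_simple s).conj y) hne h3

lemma eq_of_coord' {y : W} {s t : B} (hst : s ≠ t) (h1 : 0 ≤ geo cs y (ee t)) {r : W}
    (hr : r ∈ RS cs y s t) (h : (geo cs y⁻¹ (rt cs r)) s = 0) : r = y * cs.simple t * y⁻¹ := by
  rw [RS_swap] at hr
  exact eq_of_coord hst.symm h1 hr h

/-- The planes determine the pair of simple reflections up to conjugacy. -/
lemma conj_of_eq {x x' : W} {s t s' t' : B} (hst : s ≠ t) (hst' : s' ≠ t')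
    (h : RS cs x s t = RS cs x' s' t') :
    ∃ g : W, (g * cs.simple s * g⁻¹ = cs.simple s' ∧ g * cs.simple t * g⁻¹ = cs.simple t') ∨
      (g * cs.simple s * g⁻¹ = cs.simple t' ∧ g * cs.simple t * g⁻¹ = cs.simple s') := by
  obtain ⟨u, hu, p1, p2⟩ := exists_min (cs := cs) x s t
  obtain ⟨u', hu', p1', p2'⟩ := exists_min (cs := cs) x' s' t'
  have hR : RS cs (x * u) s t = RS cs (x' * u') s' t' := by
    rw [RS_coset hu, RS_coset hu', h]
  set y := x * u with hy
  set y' := x' * u' with hy'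
  have m1' : y' * cs.simple s' * y'⁻¹ ∈ RS cs y s t := by rw [hR]; exact simple_mem_RS _ _ _
  have m2' : y' * cs.simple t' * y'⁻¹ ∈ RS cs y s t := by rw [hR]; exact simple_mem_RS' _ _ _
  have m1 : y * cs.simple s * y⁻¹ ∈ RS cs y' s' t' := by rw [← hR]; exact simple_mem_RS _ _ _
  have m2 : y * cs.simple t * y⁻¹ ∈ RS cs y' s' t' := by rw [← hR]; exact simple_mem_RS' _ _ _
  -- coordinates
  have e1 : geo cs y'⁻¹ (rt cs (y' * cs.simple s' * y'⁻¹)) = ee s' := by
    rw [rt_min p1', geo_inv_apply]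
  have e2 : geo cs y'⁻¹ (rt cs (y' * cs.simple t' * y'⁻¹)) = ee t' := by
    rw [rt_min p2', geo_inv_apply]
  have c1 := congrArg (geo cs y'⁻¹) (comb_of hst m1')
  have c2 := congrArg (geo cs y'⁻¹) (comb_of hst m2')
  rw [e1, map_add, map_smul, map_smul, ← rt_min p1, ← rt_min p2] at c1
  rw [e2, map_add, map_smul, map_smul, ← rt_min p1, ← rt_min p2] at c2
  have n1 := coords_nonneg hst p1 p2 m1'
  have n2 := coords_nonneg hst p1 p2 m2'
  have n3 := coords_nonneg hst' p1' p2' m1
  have n4 := coords_nonneg hst' p1' p2' m2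
  have c1t := DFunLike.congr_fun c1 t'
  have c2s := DFunLike.congr_fun c2 s'
  rw [Finsupp.add_apply, Finsupp.smul_apply, Finsupp.smul_apply, smul_eq_mul, smul_eq_mul] at c1t c2s
  have z1 : (ee s' : B →₀ ℝ) t' = 0 := by simp [ee, Ne.symm hst']
  have z2 : (ee t' : B →₀ ℝ) s' = 0 := by simp [ee, hst']
  have o1 : (ee s' : B →₀ ℝ) s' = 1 := by simp [ee]
  rw [z1] at c1t
  rw [z2] at c2s
  have q1 := mul_nonneg (n1 s) (n3 t')
  have q2 := mul_nonneg (n1 t) (n4 t')
  have q3 := mul_nonneg (n2 s) (n3 s')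
  have q4 := mul_nonneg (n2 t) (n4 s')
  have w1 := (mul_eq_zero.1 (le_antisymm (by linarith) q1))
  have w2 := (mul_eq_zero.1 (le_antisymm (by linarith) q2))
  have w3 := (mul_eq_zero.1 (le_antisymm (by linarith) q3))
  have w4 := (mul_eq_zero.1 (le_antisymm (by linarith) q4))
  have conj : ∀ {i j : B}, y * cs.simple i * y⁻¹ = y' * cs.simple j * y'⁻¹ →
      y'⁻¹ * y * cs.simple i * (y'⁻¹ * y)⁻¹ = cs.simple j := by
    intro i j hij
    calc y'⁻¹ * y * cs.simple i * (y'⁻¹ * y)⁻¹ = y'⁻¹ * (y * cs.simple i * y⁻¹) * y' := by group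
      _ = y'⁻¹ * (y' * cs.simple j * y'⁻¹) * y' := by rw [hij]
      _ = cs.simple j := by group
  refine ⟨y'⁻¹ * y, ?_⟩
  rcases w1 with w1 | w1
  · -- `A(r1') = 0`
    right
    have a1 := eq_of_coord' hst p2 m1' w1
    have a2 : (geo cs y⁻¹ (rt cs (y' * cs.simple t' * y'⁻¹))) t = 0 := by
      rcases w4 with w4 | w4
      · exact w4
      · rw [← a1, e1, o1] at w4
        exact absurd w4 one_ne_zero
    have a3 := eq_of_coord hst p1 m2' a2
    exact ⟨conj a3.symm, conj a1.symm⟩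
  · left
    have a1 := eq_of_coord hst' p1' m1 w1
    have a2 : (geo cs y⁻¹ (rt cs (y' * cs.simple t' * y'⁻¹))) s = 0 := by
      rcases w3 with w3 | w3
      · exact w3
      · rw [a1, e1, o1] at w3
        exact absurd w3 one_ne_zero
    have a3 := eq_of_coord' hst p2 m2' a2
    exact ⟨conj a1, conj a3.symm⟩

lemma NN_geo {x r : W} (hr : cs.IsReflection r) : NN cs x r = 1 ↔ geo cs x⁻¹ (rt cs r) ≤ 0 := by
  rw [NN_one_iff hr, ← length_gt_iff hr, ← cs.length_inv (r * x), mul_inv_rev, hr.inv,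
    cs.length_inv x]

/-- The extremal reflection. -/
def Ext (cs : CoxeterSystem M W) (R : Set W) (a : W) : Prop :=
  a ∈ R ∧ ∀ (x : W) (s t : B), s ≠ t → RS cs x s t = R → x * cs.simple s * x⁻¹ = a →
    (∀ r ∈ R, r ≠ a → NN cs x r = 1) ∨ (∀ r ∈ R, r ≠ a → NN cs x r ≠ 1)

lemma exists_ext (x : W) {s t : B} (hst : s ≠ t) : ∃ a, Ext cs (RS cs x s t) a := by
  obtain ⟨u, hu, p1, p2⟩ := exists_min (cs := cs) x s t
  rw [← RS_coset hu]
  set y := x * u with hy
  refine ⟨y * cs.simple s * y⁻¹, simple_mem_RS _ _ _, ?_⟩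
  intro x' s' t' hst' hR ha
  set a := y * cs.simple s * y⁻¹ with hadef
  have haR : a ∈ RS cs y s t := simple_mem_RS _ _ _
  -- the `t'` coordinate
  have h0 : (geo cs x'⁻¹ (rt cs a)) t' = 0 := by
    have hrs : cs.IsReflection (cs.simple s') := cs.isReflection_simple s'
    rw [← ha]
    rcases ((rt_isRt hrs).geo x').cases with h | h
    · rw [rt_conj_pos hrs _ h, rt_simple, geo_inv_apply]
      simp [ee, Ne.symm hst']
    · rw [rt_conj_neg hrs _ h, rt_simple, map_neg, geo_inv_apply]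
      simp [ee, Ne.symm hst']
  have hκ : ∀ r ∈ RS cs y s t, (geo cs x'⁻¹ (rt cs r)) t' =
      (geo cs y⁻¹ (rt cs r)) t * (geo cs x'⁻¹ (geo cs y (ee t))) t' := by
    intro r hr
    have h1 := congrArg (geo cs x'⁻¹) (comb_of hst hr)
    rw [map_add, map_smul, map_smul, ← rt_min p1, ← hadef] at h1
    have h2 := DFunLike.congr_fun h1 t'
    rw [Finsupp.add_apply, Finsupp.smul_apply, Finsupp.smul_apply, smul_eq_mul, smul_eq_mul, h0,
      mul_zero, zero_add] at h2
    exact h2
  have hpos : ∀ r ∈ RS cs y s t, r ≠ a → 0 < (geo cs y⁻¹ (rt cs r)) t := by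
    intro r hr hne
    refine lt_of_le_of_ne (coords_nonneg hst p1 p2 hr t) ?_
    intro h1
    exact hne (eq_of_coord hst p1 hr h1.symm)
  have hκ0 : (geo cs x'⁻¹ (geo cs y (ee t))) t' ≠ 0 := by
    intro hk
    have hb : y * cs.simple t * y⁻¹ ∈ RS cs x' s' t' := by rw [hR]; exact simple_mem_RS' _ _ _
    have ha' : a ∈ RS cs x' s' t' := by rw [hR]; exact haR
    have hne : y * cs.simple t * y⁻¹ ≠ a := by
      rw [hadef]
      intro h
      have : cs.simple t = cs.simple s := by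
        have := congrArg (fun z => y⁻¹ * z * y) h
        simpa [mul_assoc] using this
      exact hst (simple_injective cs this).symm
    rw [← rt_min p2] at hk
    have c1 := comb_of hst' hb
    have c2 := comb_of hst' ha'
    rw [hk, zero_smul, add_zero] at c1
    rw [h0, zero_smul, add_zero] at c2
    obtain ⟨p, hp⟩ : ∃ p, p = (geo cs x'⁻¹ (rt cs (y * cs.simple t * y⁻¹))) s' := ⟨_, rfl⟩
    obtain ⟨q, hq⟩ : ∃ q, q = (geo cs x'⁻¹ (rt cs a)) s' := ⟨_, rfl⟩
    rw [← hp] at c1
    rw [← hq] at c2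
    have hq0 : q ≠ 0 := by
      intro hz
      rw [hz, zero_smul] at c2
      exact (rt_isRt haR.1).ne_zero c2
    refine not_prop hb.1 haR.1 hne (a := p / q) ?_
    rw [c1, c2, smul_smul, div_mul_cancel₀ _ hq0]
  rcases lt_or_gt_of_ne hκ0 with hk | hk
  · left
    intro r hr hne
    rw [NN_geo hr.1]
    have h1 := hκ r hr
    have h2 : (geo cs x'⁻¹ (rt cs r)) t' < 0 := by
      rw [h1]; exact mul_neg_of_pos_of_neg (hpos r hr hne) hk
    rcases ((rt_isRt hr.1).geo x'⁻¹).cases with h | h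
    · exact absurd (h t') (not_le.2 h2)
    · exact h
  · right
    intro r hr hne
    rw [Ne, NN_geo hr.1]
    have h1 := hκ r hr
    have h2 : 0 < (geo cs x'⁻¹ (rt cs r)) t' := by
      rw [h1]; exact mul_pos (hpos r hr hne) hk
    intro h
    exact absurd (h t') (not_le.2 h2)

end Run7.h586.CoxPlane
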