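import Pool.Agent.Run7.h586.CoxPlane

/-!
# Walks around a rank two coset of a Coxeter group
-/

set_option autoImplicit false

namespace Run7.h586.CoxPlane

open CoxeterSystem
open Pool.Agent.R676.Cox
open Pool.Agent.Helper741 (alt alt_succ' alt_conj alt_mul_two qs cc qs_sin sin_pos_of_ne)
open Pool.Agent.Helper376.LC (zmod2_cases)

variable {B : Type*} {M : CoxeterMatrix B} {W : Type*} [Group W] (cs : CoxeterSystem M W)

/-- The letters of the walk. -/
def lt (s t : B) (j : ℕ) : B := if Even j then s else t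

/-- The positions of the walk. -/
def ps (x : W) (s t : B) (j : ℕ) : W := x * alt (cs.simple s) (cs.simple t) j

/-- The reflections crossed by the walk. -/
def tj (x : W) (s t : B) (j : ℕ) : W :=
  x * ((cs.simple s * cs.simple t) ^ j * cs.simple s) * x⁻¹

variable {cs}

lemma ps_succ (x : W) (s t : B) (j : ℕ) :
    ps cs x s t (j + 1) = ps cs x s t j * cs.simple (lt s t j) := by
  rw [ps, ps, alt_succ', ← mul_assoc]
  unfold lt
  split_ifs <;> rfl

lemma ps_conj (x : W) (s t : B) (j : ℕ) :
    ps cs x s t j * cs.simple (lt s t j) * (ps cs x s t j)⁻¹ = tj cs x s t j := by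
  have h := alt_conj (cs.simple_mul_simple_self s) (cs.simple_mul_simple_self t) j
  have e : cs.simple (lt s t j) = if Even j then cs.simple s else cs.simple t := by
    unfold lt; split_ifs <;> rfl
  rw [ps, tj, e, ← h]
  group

lemma tj_eq_iff {x : W} {s t : B} {j k : ℕ} :
    tj cs x s t j = tj cs x s t k ↔ (cs.simple s * cs.simple t) ^ j =
      (cs.simple s * cs.simple t) ^ k := by
  unfold tj
  constructor
  · intro h
    have h1 := mul_right_cancel h
    have h2 := mul_left_cancel h1
    exact mul_right_cancel h2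
  · intro h; rw [h]

lemma tj_mem (x : W) (s t : B) (j : ℕ) : tj cs x s t j ∈ RS cs x s t := by
  rw [mem_RS_iff]
  constructor
  · rw [← ps_conj]
    exact (cs.isReflection_simple _).conj _
  · have e : x⁻¹ * tj cs x s t j * x = (cs.simple s * cs.simple t) ^ j * cs.simple s := by
      unfold tj; group
    rw [e]
    have hs : cs.simple s ∈ Subgroup.closure ({cs.simple s, cs.simple t} : Set W) :=
      Subgroup.subset_closure (Set.mem_insert _ _)
    have ht : cs.simple t ∈ Subgroup.closure ({cs.simple s, cs.simple t} : Set W) :=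
      Subgroup.subset_closure (Set.mem_insert_of_mem _ rfl)
    exact Subgroup.mul_mem _ (Subgroup.pow_mem _ (Subgroup.mul_mem _ hs ht) _) hs

/-- The order of the product of two simple reflections. -/
lemma pow_ne_one {s t : B} (hst : s ≠ t) {k : ℕ} (hk : 0 < k) (hkm : k < M s t) :
    (cs.simple s * cs.simple t) ^ k ≠ 1 := by
  intro h
  have h0 : M s t ≠ 0 := by omega
  have hm : (0 : ℝ) < (M s t : ℝ) := by exact_mod_cast Nat.pos_of_ne_zero h0
  have hs := sin_pos_of_ne M hst h0
  have h1 : (sg M s * sg M t) ^ k = 1 := by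
    rw [← geo_simple cs s, ← geo_simple cs t, ← map_mul, ← map_pow, h, map_one]
  have h2 : ((sg M s * sg M t) ^ k) (ee s) = ee s := by rw [h1]; rfl
  rw [← prod_alt_eq_pow, prod_alt_ee] at h2
  simp only [even_two_mul, if_true] at h2
  have h3 := DFunLike.congr_fun h2 s
  have h4 := DFunLike.congr_fun h2 t
  simp [ee, hst, Ne.symm hst] at h3 h4
  set θ := Real.pi / (M s t : ℝ) with hθ
  have s1 := qs_sin θ (2 * k)
  have s2 := qs_sin θ (2 * k + 1)
  have e1 : cc M s t = Real.cos θ := rfl
  rw [e1] at h3 h4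
  rw [h4, zero_mul] at s1
  rw [h3, one_mul] at s2
  have e2 : ((2 * k + 1 : ℕ) : ℝ) * θ = ((2 * k : ℕ) : ℝ) * θ + θ := by push_cast; ring
  rw [e2, Real.sin_add, ← s1, zero_mul, zero_add] at s2
  have h5 : Real.cos (((2 * k : ℕ) : ℝ) * θ) = 1 := by
    have : (Real.cos (((2 * k : ℕ) : ℝ) * θ) - 1) * Real.sin θ = 0 := by
      rw [sub_mul, one_mul, ← s2, sub_self]
    have := (mul_eq_zero.1 this).resolve_right hs.ne'
    linarith
  have hk' : (0 : ℝ) < (k : ℝ) := by exact_mod_cast hk
  have hkm' : (k : ℝ) < (M s t : ℝ) := by exact_mod_cast hkm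
  have hθ0 : 0 < θ := by rw [hθ]; positivity
  have h6 : ((2 * k : ℕ) : ℝ) * θ = 2 * Real.pi * ((k : ℝ) / (M s t : ℝ)) := by
    rw [hθ]; push_cast; ring
  have h7 : (k : ℝ) / (M s t : ℝ) < 1 := by rw [div_lt_one hm]; exact hkm'
  have h8 : 0 < (k : ℝ) / (M s t : ℝ) := by positivity
  have h9 := (Real.cos_eq_one_iff_of_lt_of_lt (x := ((2 * k : ℕ) : ℝ) * θ)
    (by rw [h6]; nlinarith [Real.pi_pos]) (by rw [h6]; nlinarith [Real.pi_pos])).1 h5
  have : 0 < ((2 * k : ℕ) : ℝ) * θ := by rw [h6]; positivity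
  linarith

lemma orderOf_st {s t : B} (hst : s ≠ t) (h0 : M s t ≠ 0) :
    orderOf (cs.simple s * cs.simple t) = M s t := by
  rw [orderOf_eq_iff (Nat.pos_of_ne_zero h0)]
  exact ⟨cs.simple_mul_simple_pow s t, fun k hk hk0 => pow_ne_one hst hk0 hk⟩

lemma tj_add (x : W) (s t : B) (j : ℕ) : tj cs x s t (j + M s t) = tj cs x s t j := by
  rw [tj_eq_iff, pow_add, cs.simple_mul_simple_pow, mul_one]

lemma tj_inj {x : W} {s t : B} (hst : s ≠ t) (h0 : M s t ≠ 0) {j k : ℕ} (hj : j < M s t)
    (hk : k < M s t) (h : tj cs x s t j = tj cs x s t k) : j = k := by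
  rw [tj_eq_iff, pow_eq_pow_iff_modEq, orderOf_st hst h0] at h
  exact Nat.ModEq.eq_of_lt_of_lt h hj hk

lemma exists_tj {x : W} {s t : B} (h0 : M s t ≠ 0) {r : W}
    (hr : r ∈ RS cs x s t) : ∃ j < M s t, r = tj cs x s t j := by
  obtain ⟨hr1, hr2⟩ := mem_RS_iff.1 hr
  have hodd : Odd (cs.length (x⁻¹ * r * x)) := by
    have : cs.IsReflection (x⁻¹ * r * x) := by simpa using hr1.conj x⁻¹
    exact this.odd_length
  rcases dihedral_form s t hr2 with ⟨h1, -⟩ | ⟨-, k, hk⟩
  · exact absurd hodd (Nat.not_odd_iff_even.mpr h1)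
  · have hm : (0 : ℤ) < (M s t : ℤ) := by exact_mod_cast Nat.pos_of_ne_zero h0
    refine ⟨(k % (M s t : ℤ)).toNat, ?_, ?_⟩
    · have h1 := Int.emod_lt_of_pos k hm
      have h2 := Int.emod_nonneg k hm.ne'
      omega
    · have h2 := Int.emod_nonneg k hm.ne'
      have h3 : (cs.simple s * cs.simple t) ^ (k % (M s t : ℤ)).toNat =
          (cs.simple s * cs.simple t) ^ k := by
        rw [← zpow_natCast, Int.toNat_of_nonneg h2]
        conv_rhs => rw [← Int.emod_add_mul_ediv k (M s t : ℤ)]
        rw [zpow_add, zpow_mul, zpow_natCast, cs.simple_mul_simple_pow, one_zpow, mul_one]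
      unfold tj
      rw [h3, ← hk]
      group

lemma NN_succ (x : W) (s t : B) (j : ℕ) (r : W) [Decidable (r = tj cs x s t j)] :
    NN cs (ps cs x s t (j + 1)) r = NN cs (ps cs x s t j) r +
      if r = tj cs x s t j then 1 else 0 := by
  rw [ps_succ, NN_mul]
  congr 1
  have key : (ps cs x s t j)⁻¹ * r * ps cs x s t j = cs.simple (lt s t j) ↔ r = tj cs x s t j := by
    rw [← ps_conj]
    constructor
    · intro h
      rw [← h]; group
    · intro h
      rw [h]; group
  split_ifs with h
  · rw [NN_simple_eq_one]; exact key.2 h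
  · apply NN_simple_ne
    intro h1
    exact h (key.1 h1)

open Classical in
lemma NN_shift (x : W) {s t : B} (hst : s ≠ t) (h0 : M s t ≠ 0) (j : ℕ) (r : W) :
    NN cs (ps cs x s t (j + M s t)) r = NN cs (ps cs x s t j) r +
      if r ∈ RS cs x s t then 1 else 0 := by
  -- sum formula
  have hsum : ∀ n, NN cs (ps cs x s t n) r = NN cs (ps cs x s t 0) r +
      ∑ i ∈ Finset.range n, if r = tj cs x s t i then (1 : ZMod 2) else 0 := by
    intro n
    induction n with
    | zero => simp
    | succ n ih => rw [NN_succ, ih, Finset.sum_range_succ, add_assoc]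
  have hm : ∑ i ∈ Finset.range (M s t), (if r = tj cs x s t i then (1 : ZMod 2) else 0) =
      if r ∈ RS cs x s t then 1 else 0 := by
    split_ifs with h
    · obtain ⟨j, hj, hrj⟩ := exists_tj h0 h
      rw [Finset.sum_eq_single j]
      · rw [if_pos hrj]
      · intro i hi hij
        rw [if_neg]
        intro h1
        exact hij (tj_inj hst h0 (Finset.mem_range.1 hi) hj (h1.symm.trans hrj))
      · intro h1
        exact absurd (Finset.mem_range.2 hj) h1
    · apply Finset.sum_eq_zero
      intro i _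
      rw [if_neg]
      intro h1
      exact h (h1 ▸ tj_mem x s t i)
  induction j with
  | zero =>
    rw [zero_add, hsum (M s t), hm]
  | succ j ih =>
    have e : j + 1 + M s t = (j + M s t) + 1 := by ring
    rw [e, NN_succ, NN_succ, ih, tj_add]
    ring

section kappa

variable (X : Set (Set W)) (a : Set W → W)

/-- The planes counted on the edge `{x, x s_i}`. -/
def KK (cs : CoxeterSystem M W) (X : Set (Set W)) (a : Set W → W) (x : W) (i : B) : Set (Set W) :=
  {R | R ∈ X ∧ a R = x * cs.simple i * x⁻¹ ∧ ∀ r ∈ R, r ≠ a R → NN cs x r = 1}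

/-- The parity cochain. -/
noncomputable def kap (cs : CoxeterSystem M W) (X : Set (Set W)) (a : Set W → W) (x : W) (i : B) :
    ZMod 2 := ((KK cs X a x i).ncard : ZMod 2)

variable {X a}

lemma exists_other {x : W} {s t : B} (hst : s ≠ t) (b : W) : ∃ r ∈ RS cs x s t, r ≠ b := by
  by_cases h : x * cs.simple s * x⁻¹ = b
  · refine ⟨x * cs.simple t * x⁻¹, simple_mem_RS' _ _ _, ?_⟩
    rw [← h]
    intro h1
    have h2 := mul_left_cancel (mul_right_cancel h1)
    exact hst (simple_injective cs h2).symm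
  · exact ⟨_, simple_mem_RS _ _ _, h⟩

lemma KK_finite (hX : ∀ R ∈ X, ∃ (x : W) (s t : B), s ≠ t ∧ M s t ≠ 0 ∧ R = RS cs x s t)
    (ha : ∀ R ∈ X, Ext cs R (a R)) (x : W) (i : B) : (KK cs X a x i).Finite := by
  classical
  have hch : ∀ R : Set W, ∃ r, R ∈ X → (r ∈ R ∧ r ≠ a R) := by
    intro R
    by_cases hR : R ∈ X
    · obtain ⟨y, s, t, hst, -, hRe⟩ := hX R hR
      obtain ⟨r, hr, hr'⟩ := exists_other (cs := cs) (x := y) hst (a R)
      exact ⟨r, fun _ => ⟨hRe ▸ hr, hr'⟩⟩
    · exact ⟨1, fun h => absurd h hR⟩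
  choose f hf using hch
  have hfin : {r : W | cs.IsReflection r ∧ NN cs x r = 1}.Finite := by
    apply Set.Finite.subset (inv_finite (cs := cs) x⁻¹)
    rintro r ⟨hr, h⟩
    refine ⟨hr, ?_⟩
    have h1 := (NN_one_iff hr).1 h
    rw [← cs.length_inv (x⁻¹ * r), mul_inv_rev, inv_inv, hr.inv, cs.length_inv]
    exact h1
  refine Set.Finite.of_injOn (f := f) ?_ ?_ hfin
  · rintro R ⟨hR, -, h⟩
    obtain ⟨h1, h2⟩ := hf R hR
    refine ⟨?_, h _ h1 h2⟩
    obtain ⟨y, s, t, -, -, hRe⟩ := hX R hR
    have h3 : f R ∈ RS cs y s t := by rw [← hRe]; exact h1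
    exact h3.1
  · rintro R ⟨hR, haR, -⟩ R' ⟨hR', haR', -⟩ hff
    obtain ⟨h1, h2⟩ := hf R hR
    obtain ⟨h1', h2'⟩ := hf R' hR'
    have h3 := (ha R hR).1
    have h4 := (ha R' hR').1
    obtain ⟨y, s, t, hst, -, hRe⟩ := hX R hR
    obtain ⟨y', s', t', hst', -, hRe'⟩ := hX R' hR'
    have haa : a R = a R' := haR.trans haR'.symm
    rw [← haa] at h4
    rw [← hff] at h1'
    rw [hRe, hRe']
    exact eq_of_two h2 (by rw [← hRe]; exact h1) (by rw [← hRe]; exact h3)
      (by rw [← hRe']; exact h1') (by rw [← hRe']; exact h4)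

lemma kap_symm (x : W) (i : B) : kap cs X a (x * cs.simple i) i = kap cs X a x i := by
  unfold kap
  congr 2
  ext R
  have e : x * cs.simple i * cs.simple i * (x * cs.simple i)⁻¹ = x * cs.simple i * x⁻¹ := by
    rw [mul_inv_rev, cs.inv_simple, cs.simple_mul_simple_cancel_right, ← mul_assoc]
  have key : ∀ r : W, r ≠ x * cs.simple i * x⁻¹ → NN cs (x * cs.simple i) r = NN cs x r := by
    intro r hr
    rw [NN_mul, NN_simple_ne, add_zero]
    intro h
    apply hr
    rw [← h]; group
  simp only [KK, Set.mem_ofPred_eq, e]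
  constructor
  · rintro ⟨h1, h2, h3⟩
    refine ⟨h1, h2, fun r hr hne => ?_⟩
    rw [← key r (by rw [← h2]; exact hne)]
    exact h3 r hr hne
  · rintro ⟨h1, h2, h3⟩
    refine ⟨h1, h2, fun r hr hne => ?_⟩
    rw [key r (by rw [← h2]; exact hne)]
    exact h3 r hr hne

open Classical in
lemma parity_eq {α : Type*} {K1 K2 : Set α} (h1 : K1.Finite) (h2 : K2.Finite) (q : α)
    (h : ∀ R, R ≠ q → (R ∈ K1 ↔ R ∈ K2)) :
    ((K1.ncard : ZMod 2) + (K2.ncard : ZMod 2)) =
      (if q ∈ K1 then 1 else 0) + (if q ∈ K2 then 1 else 0) := by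
  have e : K1 \ {q} = K2 \ {q} := by
    ext R
    simp only [Set.mem_sdiff, Set.mem_singleton_iff]
    constructor
    · rintro ⟨h3, h4⟩; exact ⟨(h R h4).1 h3, h4⟩
    · rintro ⟨h3, h4⟩; exact ⟨(h R h4).2 h3, h4⟩
  have key : ∀ K : Set α, K.Finite → (K.ncard : ZMod 2) = ((K \ {q}).ncard : ZMod 2) +
      if q ∈ K then 1 else 0 := by
    intro K hK
    split_ifs with hq
    · rw [← Set.ncard_sdiff_singleton_add_one hq hK]
      push_cast; rfl
    · rw [Set.sdiff_singleton_eq_self hq, add_zero]
  rw [key K1 h1, key K2 h2, e]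
  have : ∀ z : ZMod 2, z + z = 0 := by decide
  linear_combination this ((K2 \ {q}).ncard : ZMod 2)

open Classical in
/-- The total parity around a rank two coset. -/
theorem sum_kap (hX : ∀ R ∈ X, ∃ (x : W) (s t : B), s ≠ t ∧ M s t ≠ 0 ∧ R = RS cs x s t)
    (ha : ∀ R ∈ X, Ext cs R (a R)) (x : W) {s t : B} (hst : s ≠ t) (h0 : M s t ≠ 0) :
    ∑ j ∈ Finset.range (2 * M s t), kap cs X a (ps cs x s t j) (lt s t j) =
      if RS cs x s t ∈ X then 1 else 0 := by
  set m := M s t with hm
  set Q := RS cs x s t with hQ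
  -- every position has the same plane
  have hpsQ : ∀ j, RS cs (ps cs x s t j) s t = Q := by
    intro j
    rw [hQ, ps]
    apply RS_coset
    have hs : cs.simple s ∈ Subgroup.closure ({cs.simple s, cs.simple t} : Set W) :=
      Subgroup.subset_closure (Set.mem_insert _ _)
    have ht : cs.simple t ∈ Subgroup.closure ({cs.simple s, cs.simple t} : Set W) :=
      Subgroup.subset_closure (Set.mem_insert_of_mem _ rfl)
    induction j with
    | zero => simp
    | succ j ih =>
      rw [alt_succ']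
      refine Subgroup.mul_mem _ ih ?_
      split_ifs
      · exact hs
      · exact ht
  have hpair : ∀ j, kap cs X a (ps cs x s t j) (lt s t j) +
      kap cs X a (ps cs x s t (j + m)) (lt s t (j + m)) =
      if (Q ∈ X ∧ a Q = tj cs x s t j) then 1 else 0 := by
    intro j
    have m1 : ∀ R, R ∈ KK cs X a (ps cs x s t j) (lt s t j) ↔
        R ∈ X ∧ a R = tj cs x s t j ∧ ∀ r ∈ R, r ≠ a R → NN cs (ps cs x s t j) r = 1 := by
      intro R
      simp only [KK, Set.mem_ofPred_eq, ps_conj]
    have m2 : ∀ R, R ∈ KK cs X a (ps cs x s t (j + m)) (lt s t (j + m)) ↔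
        R ∈ X ∧ a R = tj cs x s t j ∧ ∀ r ∈ R, r ≠ a R → NN cs (ps cs x s t (j + m)) r = 1 := by
      intro R
      simp only [KK, Set.mem_ofPred_eq, ps_conj]
      rw [hm, tj_add]
    unfold kap
    rw [parity_eq (KK_finite hX ha _ _) (KK_finite hX ha _ _) Q]
    · -- the plane `Q`
      by_cases hcond : Q ∈ X ∧ a Q = tj cs x s t j
      · rw [if_pos hcond]
        have hne2 : ∀ z : ZMod 2, z ≠ 1 → z + 1 = 1 := by decide
        have hext := (ha Q hcond.1).2 (ps cs x s t j)
        have hext' : (∀ r ∈ Q, r ≠ a Q → NN cs (ps cs x s t j) r = 1) ∨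
            (∀ r ∈ Q, r ≠ a Q → NN cs (ps cs x s t j) r ≠ 1) := by
          by_cases hev : Even j
          · apply hext s t hst (hpsQ j)
            have := ps_conj (cs := cs) x s t j
            rw [lt, if_pos hev] at this
            rw [this, hcond.2]
          · apply hext t s hst.symm (by rw [RS_swap]; exact hpsQ j)
            have := ps_conj (cs := cs) x s t j
            rw [lt, if_neg hev] at this
            rw [this, hcond.2]
        obtain ⟨b, hb, hb'⟩ := exists_other (cs := cs) (x := x) hst (a Q)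
        have hshift : ∀ r ∈ Q, NN cs (ps cs x s t (j + m)) r =
            NN cs (ps cs x s t j) r + 1 := by
          intro r hr
          rw [hm, NN_shift x hst h0, if_pos hr]
        rcases hext' with h1 | h1
        · have c1 : Q ∈ KK cs X a (ps cs x s t j) (lt s t j) :=
            (m1 Q).2 ⟨hcond.1, hcond.2, h1⟩
          have c2 : Q ∉ KK cs X a (ps cs x s t (j + m)) (lt s t (j + m)) := by
            intro h2
            have h3 := ((m2 Q).1 h2).2.2 b hb hb'
            rw [hshift b hb, h1 b hb hb'] at h3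
            exact absurd h3 (by decide)
          rw [if_pos c1, if_neg c2, add_zero]
        · have c1 : Q ∉ KK cs X a (ps cs x s t j) (lt s t j) := by
            intro h2
            exact h1 b hb hb' (((m1 Q).1 h2).2.2 b hb hb')
          have c2 : Q ∈ KK cs X a (ps cs x s t (j + m)) (lt s t (j + m)) := by
            refine (m2 Q).2 ⟨hcond.1, hcond.2, fun r hr hne => ?_⟩
            rw [hshift r hr]
            exact hne2 _ (h1 r hr hne)
          rw [if_neg c1, if_pos c2, zero_add]
      · have c1 : Q ∉ KK cs X a (ps cs x s t j) (lt s t j) := by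
          intro h2
          have h3 := (m1 Q).1 h2
          exact hcond ⟨h3.1, h3.2.1⟩
        have c2 : Q ∉ KK cs X a (ps cs x s t (j + m)) (lt s t (j + m)) := by
          intro h2
          have h3 := (m2 Q).1 h2
          exact hcond ⟨h3.1, h3.2.1⟩
        rw [if_neg c1, if_neg c2, if_neg hcond, add_zero]
    · intro R hRQ
      rw [m1, m2]
      refine and_congr_right fun hR => and_congr_right fun haR => ?_
      have hsame : ∀ r ∈ R, r ≠ a R → NN cs (ps cs x s t (j + m)) r =
          NN cs (ps cs x s t j) r := by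
        intro r hr hne
        rw [hm, NN_shift x hst h0, if_neg, add_zero]
        intro hrQ
        apply hRQ
        obtain ⟨y, s', t', -, -, hRe⟩ := hX R hR
        have haR2 := (ha R hR).1
        have haQ : a R ∈ RS cs x s t := by rw [haR]; exact tj_mem _ _ _ _
        have hr2 : r ∈ RS cs y s' t' := by rw [← hRe]; exact hr
        have haR3 : a R ∈ RS cs y s' t' := by rw [← hRe]; exact haR2
        rw [hRe, hQ]
        exact eq_of_two hne hr2 haR3 hrQ haQ
      constructor
      · intro h r hr hne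
        rw [hsame r hr hne]; exact h r hr hne
      · intro h r hr hne
        rw [← hsame r hr hne]; exact h r hr hne
  rw [two_mul, Finset.sum_range_add, ← Finset.sum_add_distrib]
  have hc : ∀ j ∈ Finset.range m, kap cs X a (ps cs x s t j) (lt s t j) +
      kap cs X a (ps cs x s t (m + j)) (lt s t (m + j)) =
      if (Q ∈ X ∧ a Q = tj cs x s t j) then 1 else 0 := by
    intro j _
    rw [add_comm m j]
    exact hpair j
  rw [Finset.sum_congr rfl hc]
  split_ifs with hQX
  · have haQ := (ha Q hQX).1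
    obtain ⟨j, hj, hja⟩ := exists_tj h0 haQ
    rw [Finset.sum_eq_single j]
    · rw [if_pos ⟨hQX, hja⟩]
    · intro i hi hij
      rw [if_neg]
      rintro ⟨-, h1⟩
      exact hij (tj_inj hst h0 (Finset.mem_range.1 hi) hj (h1.symm.trans hja))
    · intro h1
      exact absurd (Finset.mem_range.2 hj) h1
  · apply Finset.sum_eq_zero
    intro i _
    rw [if_neg]
    rintro ⟨h1, -⟩
    exact hQX h1

end kappa

end Run7.h586.CoxPlane
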